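import Mathlib
import Pool.Agent.H763.HenMain

/-!
The quadratic Hénon map `H(x,y) = (y, x + y^2)` of `ℂ²` has small saddle cycles and small
elliptic cycles.
-/

set_option autoImplicit false

namespace Pool.Agent.Results.MP_c8d52e_an.SmallCycles

open Topology Polynomial

/-- The quadratic Hénon map `H(x, y) = (y, x + y ^ 2)` of `ℂ²`. -/
def henon (p : ℂ × ℂ) : ℂ × ℂ := (p.2, p.1 + p.2 ^ 2)

/-- The cycle through `p` (its forward orbit; `p` will be periodic). -/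
def cycle (p : ℂ × ℂ) : Set (ℂ × ℂ) := {q | ∃ k : ℕ, q = henon^[k] p}

/-- `l1, l2` are the multipliers of the cycle through the periodic point `p`: with `n` the minimal
period of `p`, the characteristic polynomial of the complex derivative of `H^n` at `p` is
`(X - l1) (X - l2)`, that is, `l1, l2` are its eigenvalues counted with multiplicity. -/
def AreMultipliers (p : ℂ × ℂ) (l1 l2 : ℂ) : Prop :=
  LinearMap.charpoly ((fderiv ℂ (henon^[Function.minimalPeriod henon p]) p :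
    ℂ × ℂ →L[ℂ] ℂ × ℂ) : ℂ × ℂ →ₗ[ℂ] ℂ × ℂ) = (X - C l1) * (X - C l2)

/-- `p` is a periodic point whose cycle is a saddle. -/
def IsSaddle (p : ℂ × ℂ) : Prop :=
  p ∈ Function.periodicPts henon ∧ ∃ l1 l2 : ℂ, AreMultipliers p l1 l2 ∧ ‖l1‖ < 1 ∧ 1 < ‖l2‖

/-- `p` is a periodic point whose cycle is elliptic. -/
def IsElliptic (p : ℂ × ℂ) : Prop :=
  p ∈ Function.periodicPts henon ∧ ∃ l1 l2 : ℂ, AreMultipliers p l1 l2 ∧ ‖l1‖ = 1 ∧ ‖l2‖ = 1

/-- Every neighbourhood `U` of the origin contains a saddle cycle in `U \ {0}`. -/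
def HasSmallSaddleCycles : Prop :=
  ∀ U ∈ 𝓝 (0 : ℂ × ℂ), ∃ p, IsSaddle p ∧ cycle p ⊆ U \ {0}

/-- Every neighbourhood `U` of the origin contains an elliptic cycle in `U \ {0}`. -/
def HasSmallEllipticCycles : Prop :=
  ∀ U ∈ 𝓝 (0 : ℂ × ℂ), ∃ p, IsElliptic p ∧ cycle p ⊆ U \ {0}

theorem result : HasSmallSaddleCycles ∧ HasSmallEllipticCycles := by
  constructor
  · intro U hU
    obtain ⟨⟨p, hp, ⟨l1, l2, hc, h1, h2⟩, hk⟩, _⟩ :=
      Pool.Agent.H763.Hen.main henon (fun _ => rfl) U hU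
    refine ⟨p, ⟨hp, l1, l2, hc, h1, h2⟩, ?_⟩
    rintro q ⟨k, rfl⟩
    exact hk k
  · intro U hU
    obtain ⟨_, ⟨p, hp, ⟨l1, l2, hc, h1, h2⟩, hk⟩⟩ :=
      Pool.Agent.H763.Hen.main henon (fun _ => rfl) U hU
    refine ⟨p, ⟨hp, l1, l2, hc, h1, h2⟩, ?_⟩
    rintro q ⟨k, rfl⟩
    exact hk k

end Pool.Agent.Results.MP_c8d52e_an.SmallCycles
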